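import Mathlib
import Pool.Agent.H8.GS4

namespace Pool.Agent.Results.MP_d36490_an.ZeroBound
open Finset

/-- Pochhammer symbol `w (w+1) ... (w+k-1)`. -/
noncomputable def poch (w : ℂ) (k : ℕ) : ℂ := ∏ i ∈ range k, (w + i)

/-- Coefficient of `z^j` in the terminating series `P_n`. -/
noncomputable def A {p q : ℕ} (lam : ℂ) (a : Fin p → ℂ) (b : Fin q → ℂ) (n j : ℕ) : ℂ :=
  poch (-(n : ℂ)) j * poch (n + lam) j * (∏ k, poch (a k) j)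
    / ((∏ k, poch (b k) j) * (j.factorial : ℂ))

theorem result (p q : ℕ) (hqp : q ≤ p) (lam : ℂ) (a : Fin p → ℂ) (b : Fin q → ℂ)
    (ha : ∀ k, ∀ m : ℕ, a k ≠ -(m : ℂ)) (hb : ∀ k, ∀ m : ℕ, b k ≠ -(m : ℂ)) :
    ∃ M : ℝ, ∀ n : ℕ, 1 ≤ n → A lam a b n n ≠ 0 → ∀ z : ℂ,
      ∑ j ∈ range (n + 1), A lam a b n j * z ^ j = 0 →
        ‖z‖ ≤ M * (n : ℝ) ^ ((q : ℤ) - (p : ℤ) - 1) := by
  obtain ⟨r, rfl⟩ := Nat.exists_eq_add_of_le hqp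
  obtain ⟨M, hM⟩ := Pool.Agent.H8.GS.main q r lam a b ha hb (A lam a b) (fun _ _ => rfl)
  refine ⟨M, fun n hn hA z hz => ?_⟩
  have e : ((q : ℤ) - ((q + r : ℕ) : ℤ) - 1) = -((r + 1 : ℕ) : ℤ) := by push_cast; ring
  rw [e, zpow_neg, zpow_natCast]
  exact hM n hn hA z hz

end Pool.Agent.Results.MP_d36490_an.ZeroBound
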